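import Pool.Agent.Lib.MP_a3e05c_co.S7.Num
import Pool.Agent.Lib.MP_a3e05c_co.CA.Ud2
import Pool.Agent.Lib.MP_a3e05c_co.CA.OneStep
import Pool.Agent.Lib.MP_a3e05c_co.KL.FFG

/-!
# EULER, scalar block S7, degrees `D ≥ 64`
-/

open Finset

namespace MP_a3e05c_co.KL

private theorem Large7_log_le {x : ℝ} (hx : 0 < x) : Real.log x ≤ 31589 / 10000 + x / 64 := by
  have h1 := Real.log_le_sub_one_of_pos (x := x / 64) (by positivity)
  have h2 : Real.log (x / 64) = Real.log x - 6 * Real.log 2 := by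
    rw [Real.log_div hx.ne' (by norm_num)]
    have h3 : (64 : ℝ) = 2 ^ 6 := by norm_num
    rw [h3, Real.log_pow]
    norm_num
  have h4 := Real.log_two_lt_d9
  rw [h2] at h1
  norm_num at h4 ⊢
  linarith

/-- the scalar facts for `n = s + 2 ≥ 65` -/
private theorem Large7_facts {n T b g : ℝ} (hn : 65 ≤ n)
    (hT : T ≤ (Real.log n / 2 - 17 / 100) / n)
    (hb : 1 / 2 * Real.log (Real.pi * (n - 1 / 2) / 2) ≤ b)
    (hg : g = -(1 / 2) * Real.log ((n - 1) / (2 * (n - 2)))) :
    T * (n + 1) ≤ b - n * g / (n - 2) +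
      n / 2 * Real.log (1 - 1 / ((n - 2) * (n - 1))) := by
  have hn0 : 0 < n := by linarith
  have hn1 : 0 < n - 1 := by linarith
  have hn2 : 0 < n - 2 := by linarith
  have hL1 := Large7_log_le hn0
  have hlp := CA.log_pi_ge
  have hl2 := Real.log_two_lt_d9
  have hl2' := Real.log_two_gt_d9
  norm_num at hl2 hl2' hlp
  -- `b`
  have hb1 : 1 / 2 * (Real.log n + Real.log Real.pi - Real.log 2 - 1 / (2 * n - 1)) ≤ b := by
    refine le_trans ?_ hb
    have h1 : Real.pi * (n - 1 / 2) / 2 = Real.pi / 2 * n * ((n - 1 / 2) / n) := by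
      field_simp
    have h2 : 0 < (n - 1 / 2) / n := div_pos (by linarith) hn0
    have hp := Real.pi_pos
    rw [h1, Real.log_mul (by positivity) h2.ne', Real.log_mul (by positivity) hn0.ne',
      Real.log_div hp.ne' (by norm_num)]
    have h3 := Real.one_sub_inv_le_log_of_pos h2
    have h4 : 1 - ((n - 1 / 2) / n)⁻¹ = -(1 / (2 * n - 1)) := by
      have h6 : 2 * n - 1 ≠ 0 := by linarith
      have h7 : (n - 1 / 2) / n = (2 * n - 1) / (2 * n) := by
        field_simp
      rw [h7, inv_div, eq_neg_iff_add_eq_zero]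
      field_simp
      ring
    rw [h4] at h3
    linarith
  have hr : 1 / (2 * n - 1) ≤ 1 / 129 :=
    one_div_le_one_div_of_le (by norm_num) (by linarith)
  -- `g`
  have hg1 : g ≤ 1 / 2 * Real.log 2 - 1 / (2 * (n - 1)) := by
    have h1 : Real.log ((n - 1) / (2 * (n - 2))) = Real.log ((n - 1) / (n - 2)) - Real.log 2 := by
      rw [mul_comm, ← div_div, Real.log_div (by positivity) (by norm_num)]
    have h2 := Real.one_sub_inv_le_log_of_pos (x := (n - 1) / (n - 2)) (by positivity)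
    have h3 : 1 - ((n - 1) / (n - 2))⁻¹ = 1 / (n - 1) := by
      rw [inv_div]
      field_simp
      ring
    rw [h3] at h2
    have h4 : 1 / (2 * (n - 1)) = 1 / 2 * (1 / (n - 1)) := by
      field_simp
    rw [hg, h1, h4]
    linarith
  have hg2 : n * g / (n - 2) ≤ 1 / 2 * Real.log 2 + Real.log 2 / (n - 2) -
      n / 2 * (1 / ((n - 2) * (n - 1))) := by
    have h1 : n * g / (n - 2) ≤ n * (1 / 2 * Real.log 2 - 1 / (2 * (n - 1))) / (n - 2) :=
      div_le_div_of_nonneg_right (mul_le_mul_of_nonneg_left hg1 hn0.le) hn2.le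
    refine h1.trans (le_of_eq ?_)
    field_simp
    ring
  -- the logarithm
  have hq : 0 < (n - 2) * (n - 1) - 1 := by nlinarith
  have hq1 : 0 < (n - 2) * (n - 1) := by positivity
  have hlog : -(n / 2) * (1 / ((n - 2) * (n - 1) - 1)) ≤
      n / 2 * Real.log (1 - 1 / ((n - 2) * (n - 1))) := by
    have h1 : 1 - 1 / ((n - 2) * (n - 1)) = ((n - 2) * (n - 1) - 1) / ((n - 2) * (n - 1)) := by
      field_simp
    have h2 := Real.one_sub_inv_le_log_of_pos (x := 1 - 1 / ((n - 2) * (n - 1)))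
      (by rw [h1]; positivity)
    have h3 : 1 - (1 - 1 / ((n - 2) * (n - 1)))⁻¹ = -(1 / ((n - 2) * (n - 1) - 1)) := by
      rw [h1, inv_div]
      field_simp
      ring
    rw [h3] at h2
    have h4 := mul_le_mul_of_nonneg_left h2 (by linarith : 0 ≤ n / 2)
    linarith
  have htiny : n / 2 * (1 / ((n - 2) * (n - 1) - 1)) - n / 2 * (1 / ((n - 2) * (n - 1))) ≤
      1 / 10000 := by
    have h1 : n / 2 * (1 / ((n - 2) * (n - 1) - 1)) - n / 2 * (1 / ((n - 2) * (n - 1))) =
        n / (2 * ((n - 2) * (n - 1) - 1) * ((n - 2) * (n - 1))) := by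
      field_simp
      ring
    rw [h1, div_le_iff₀ (by positivity)]
    have h2 : 4000 ≤ (n - 2) * (n - 1) - 1 := by nlinarith
    have h3 : n ≤ (n - 2) * (n - 1) := by nlinarith
    nlinarith
  -- `T`
  have hT2 : T * (n + 1) ≤ Real.log n / 2 - 17 / 100 + (Real.log n / 2 - 17 / 100) / n := by
    have h1 := mul_le_mul_of_nonneg_right hT (by linarith : 0 ≤ n + 1)
    refine h1.trans (le_of_eq ?_)
    field_simp
  have hT3 : (Real.log n / 2 - 17 / 100) / n ≤ 1 / 128 + 14095 / 10000 * (1 / n) := by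
    rw [div_le_iff₀ hn0]
    have h1 : (1 / 128 + 14095 / 10000 * (1 / n)) * n = n / 128 + 14095 / 10000 := by
      field_simp
    rw [h1]
    linarith
  have hn' : 1 / n ≤ 1 / 65 := one_div_le_one_div_of_le (by norm_num) hn
  have hl3 : Real.log 2 / (n - 2) ≤ 7 / 630 := by
    rw [div_le_div_iff₀ hn2 (by norm_num)]
    nlinarith
  linarith

/-- **S7, large degrees.** -/
theorem S7_large {D : ℕ} (hD : Even D) (h : 64 ≤ D) : NUM.ScS7 D := by
  have hDR : (64 : ℝ) ≤ D := by exact_mod_cast h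
  obtain ⟨s, hs⟩ : ∃ s : ℝ, s = (D : ℝ) - 1 := ⟨_, rfl⟩
  have hs63 : 63 ≤ s := by linarith
  have hs0 : 0 < s := by linarith
  have hDs : (D : ℝ) = s + 1 := by rw [hs]; ring
  have e1 : ((D - 1 : ℕ) : ℝ) = s := by
    rw [hs, Nat.cast_sub (by omega)]; simp
  obtain ⟨b, hb⟩ : ∃ b, b = -Real.log (bb (D / 2)) := ⟨_, rfl⟩
  obtain ⟨p, hp⟩ : ∃ p, p = pp s (D - 1) := ⟨_, rfl⟩
  obtain ⟨T, hT⟩ : ∃ T, T = TT D := ⟨_, rfl⟩
  obtain ⟨g, hg⟩ : ∃ g, g = gg s (D - 1) := ⟨_, rfl⟩
  obtain ⟨w, hw⟩ : ∃ w, w = KL.hp s (D - 1) := ⟨_, rfl⟩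
  obtain ⟨x, hx⟩ : ∃ x, x = KL.hs D := ⟨_, rfl⟩
  -- relations
  have r1 : (s + 2) * x = b - p - T := by
    have := hs_eq (d := D) (by omega)
    rw [← hs, ← hx, ← hb, ← hp, ← hT] at this
    have e : (D : ℝ) + 1 = s + 2 := by rw [hs]; ring
    rwa [e] at this
  have r2 : p + s * w = g := by
    have := hp_rec s (k := D - 1) (by omega)
    rwa [← hp, e1, ← hw, ← hg] at this
  have r3 : phi D (D - 1) = -b + p := by
    rw [phi_G (by omega : D - 1 < D), ← hs, ← hp, hb, neg_neg]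
  have r4 : phi D (D - 2) = -b + p - w := by
    rw [phi_G (by omega : D - 2 < D), ← hs, hw, KL.hp, ← hp, hb, Nat.sub_sub]
    ring
  have r5 : AA D = x - b + p := by
    have : KL.hs D = AA D - phi D (D - 1) := rfl
    rw [← hx, r3] at this
    linarith
  have hp0 : 0 ≤ p := by
    rw [hp]
    exact pp_nonneg e1.le
  have hx2 : 1 - xx s (D - 1) = (s + 1) / (2 * s) := by
    unfold xx
    rw [e1]
    field_simp
    ring
  have hg2 : g = -(1 / 2) * Real.log ((s + 1) / (2 * s)) := by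
    rw [hg, gg, hx2]
  have hTle : T ≤ (Real.log (s + 2) / 2 - 17 / 100) / (s + 2) := by
    have h1 := PK_low_c (D + 1) hD.add_one (by omega)
    have h2 : 0 < PK (D + 1) := lt_of_lt_of_le (Real.exp_pos _) h1
    rw [← Real.le_log_iff_exp_le h2] at h1
    have h3 := CA.Ud_le2 D hD (by omega)
    have h4 := TT_eq_Ud (d := D) (by omega)
    push_cast at h1
    have e : (D : ℝ) + 1 = s + 2 := by rw [hs]; ring
    rw [e] at h1 h3
    have h5 : (Real.log (s + 2) / 2 - 17 / 100) / (s + 2) =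
        (Real.log (s + 2) / 2 - 2 / 25) / (s + 2) - 9 / (100 * (s + 2)) := by
      field_simp
      ring
    rw [hT, h4, h5]
    linarith
  have hD2 : ((D / 2 : ℕ) : ℝ) = D / 2 := by
    obtain ⟨m, rfl⟩ := hD
    have h3 : (m + m) / 2 = m := by omega
    rw [h3]
    push_cast
    ring
  have hble : 1 / 2 * Real.log (Real.pi * (s + 2 - 1 / 2) / 2) ≤ b := by
    have h1 := NCS.log_cb_le (D / 2)
    have h5 : bb (D / 2) = NCS.cb (D / 2) := rfl
    have e : 2 * (((D / 2 : ℕ) : ℝ)) + 1 / 2 = s + 2 - 1 / 2 := by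
      rw [hD2, hs]
      ring
    rw [e, ← h5] at h1
    rw [hb]
    linarith
  have hfac := Large7_facts (n := s + 2) (T := T) (b := b) (g := g) (by linarith) hTle hble (by
    have e : s + 2 - 1 = s + 1 := by ring
    rw [e, add_sub_cancel_right, hg2])
  have e3 : s + 2 - 1 = s + 1 := by ring
  rw [e3, add_sub_cancel_right] at hfac
  -- the main inequality
  have hmain : T ≤ x + (p - g) / s + 1 / 2 * Real.log (1 - 1 / (s * (s + 1))) := by
    have h1 : (s + 2) * T ≤ (s + 2) * (x + (p - g) / s + 1 / 2 * Real.log (1 - 1 / (s * (s + 1)))) := by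
      have h2 : (s + 2) * (x + (p - g) / s + 1 / 2 * Real.log (1 - 1 / (s * (s + 1)))) =
          (s + 2) * x + p + 2 * (p / s) - (s + 2) * g / s +
            (s + 2) / 2 * Real.log (1 - 1 / (s * (s + 1))) := by
        field_simp
        ring
      have h3 : 0 ≤ p / s := by positivity
      rw [h2, r1]
      linarith
    exact le_of_mul_le_mul_left h1 (by linarith)
  unfold NUM.ScS7
  have hR : ((D : ℝ) + 2) * AA D - ((D : ℝ) - 2) * phi D (D - 2) - 2 * phi D (D - 1) =
      -b + g - T + x + (p - g) / s := by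
    have hwv : w = (g - p) / s := by
      rw [eq_div_iff hs0.ne']
      linarith
    rw [r3, r4, r5, hDs]
    have h1 : (p - g) / s = -w := by
      rw [hwv]
      ring
    rw [h1]
    linear_combination r1 + r2
  rw [hR]
  obtain ⟨v, hv⟩ : ∃ v, v = ((D : ℝ) - 2) * D / (2 * ((D : ℝ) - 1)) + 1 / 2 := ⟨_, rfl⟩
  rw [← hv]
  have hva : v = (s ^ 2 + s - 1) / (2 * s) := by
    rw [hv, hDs]
    have e : s + 1 - 1 = s := by ring
    rw [e]
    field_simp
    ring
  have hv0 : 0 < v := by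
    rw [hva]
    have : 0 < s ^ 2 + s - 1 := by nlinarith
    positivity
  have hvs : v ≤ s := by
    rw [hva, div_le_iff₀ (by positivity)]
    nlinarith
  have hpos : 0 < FM (D - 1) 1 v := NUM.FM_pos (by rw [e1]; exact hvs)
  have h3 := FM_le_G (d := D) (k := D - 1) hD (by omega) (y := s - v) (by linarith)
    (by rw [← hs]; linarith)
  have e3 : D - (D - 1) = 1 := by omega
  rw [e3, e1, sub_sub_cancel, ← hs] at h3
  have e4 : 1 - (s - v) / s = (s + 1) / (2 * s) * (1 - 1 / (s * (s + 1))) := by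
    rw [hva]
    field_simp
    ring
  rw [e4] at h3
  have hq : 0 < (s + 1) / (2 * s) := by positivity
  have hq2 : 0 < 1 - 1 / (s * (s + 1)) := by
    rw [sub_pos, div_lt_one (by positivity)]
    nlinarith
  have h5 := Real.log_le_log hpos h3
  rw [Real.log_mul (bb_pos _).ne' (by positivity), one_div, Real.log_inv, Real.log_sqrt
    (by positivity), Real.log_mul hq.ne' hq2.ne'] at h5
  refine h5.trans ?_
  have h6 : Real.log (bb (D / 2)) = -b := by rw [hb, neg_neg]
  rw [h6]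
  linarith

/-- **S7.** -/
theorem S7_all {D : ℕ} (hD : Even D) (h4 : 2 ≤ D) : NUM.ScS7 D := by
  rcases Nat.lt_or_ge D 63 with h | h
  · exact NUM.S7_small hD h4 (by omega)
  · refine S7_large hD ?_
    obtain ⟨m, hm⟩ := hD
    omega

end MP_a3e05c_co.KL
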