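import Pool.Agent.Lib.MP_a3e05c_co.CA.OneStep
import Pool.Agent.Lib.MP_a3e05c_co.NUM.FMn

/-!
# EULER, S7: closed form for large degrees
-/

open Finset

namespace MP_a3e05c_co.KL

/-- the logarithms -/
private theorem S7Big_E {s : ℝ} (hs : 2 ≤ s) :
    -(Real.log 2 / (2 * s)) ≤ (s - 1) / (2 * s) * Real.log (2 * s / (s + 1)) -
      1 / 2 * Real.log (2 * s ^ 2 / (s ^ 2 + s - 1)) := by
  have hs0 : 0 < s := by linarith
  have hq : 0 < s ^ 2 + s - 1 := by nlinarith
  have h1 : Real.log (2 * s / (s + 1)) = Real.log 2 - Real.log ((s + 1) / s) := by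
    rw [← Real.log_div (by norm_num) (by positivity)]
    congr 1
    field_simp
  have h2 : Real.log (2 * s ^ 2 / (s ^ 2 + s - 1)) =
      Real.log 2 - Real.log ((s ^ 2 + s - 1) / s ^ 2) := by
    rw [← Real.log_div (by norm_num) (by positivity)]
    congr 1
    field_simp
  have h3 := CA.log_ratio_le (N := 2 * s + 1) (by linarith)
  have e3 : (2 * s + 1 + 1) / (2 * s + 1 - 1) = (s + 1) / s := by
    field_simp
    ring
  rw [e3] at h3
  have h4 := Real.le_log_one_add_of_nonneg (x := (s - 1) / s ^ 2)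
    (div_nonneg (by linarith) (by positivity))
  have e4 : 1 + (s - 1) / s ^ 2 = (s ^ 2 + s - 1) / s ^ 2 := by
    field_simp
    ring
  rw [e4] at h4
  have h5 : (s - 1) / s * (2 / (2 * s + 1) + 2 / ((2 * s + 1) * ((2 * s + 1) ^ 2 - 1))) ≤
      2 * ((s - 1) / s ^ 2) / ((s - 1) / s ^ 2 + 2) := by
    have e5 : 2 / (2 * s + 1) + 2 / ((2 * s + 1) * ((2 * s + 1) ^ 2 - 1)) =
        (2 * s + 1) / (2 * s * (s + 1)) := by
      have : (2 * s + 1) ^ 2 - 1 = 4 * s * (s + 1) := by ring
      rw [this]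
      field_simp
      ring
    have e6 : 2 * ((s - 1) / s ^ 2) / ((s - 1) / s ^ 2 + 2) =
        (s - 1) * (2 / ((2 * s - 1) * (s + 1))) := by
      have h6 : (s - 1) / s ^ 2 + 2 = ((2 * s - 1) * (s + 1)) / s ^ 2 := by
        field_simp
        ring
      have h7 : 2 * s - 1 ≠ 0 := by linarith
      rw [h6]
      field_simp
    have e7 : (s - 1) / s * ((2 * s + 1) / (2 * s * (s + 1))) =
        (s - 1) * ((2 * s + 1) / (2 * s ^ 2 * (s + 1))) := by
      field_simp
    rw [e5, e6, e7]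
    refine mul_le_mul_of_nonneg_left ?_ (by linarith)
    have h7 : 0 < 2 * s - 1 := by linarith
    rw [div_le_div_iff₀ (by positivity) (by positivity)]
    nlinarith [mul_pos hs0 hs0]
  have h6 : (s - 1) / s * Real.log ((s + 1) / s) ≤ Real.log ((s ^ 2 + s - 1) / s ^ 2) := by
    have h7 : 0 ≤ (s - 1) / s := div_nonneg (by linarith) hs0.le
    exact (mul_le_mul_of_nonneg_left h3 h7).trans (h5.trans h4)
  rw [h1, h2]
  have e8 : (s - 1) / (2 * s) * (Real.log 2 - Real.log ((s + 1) / s)) -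
      1 / 2 * (Real.log 2 - Real.log ((s ^ 2 + s - 1) / s ^ 2)) =
      -(Real.log 2 / (2 * s)) + 1 / 2 * (Real.log ((s ^ 2 + s - 1) / s ^ 2) -
        (s - 1) / s * Real.log ((s + 1) / s)) := by
    field_simp
    ring
  rw [e8]
  linarith

/-- the main inequality -/
private theorem S7Big_main {s x p l : ℝ} (hs : 99 ≤ s) (hx : x ≤ (s + 2) / 32 + 24658 / 10000)
    (hpl : -(24170 / 100000) ≤ p - l) (hp : p ≤ 5708 / 10000) :
    0 ≤ (p + x - 1 / (2 * s + 3)) / (2 * s) - l / (2 * s) - (p + x) / (s * (s + 1)) -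
      (x / 2 - 17 / 100) / (s + 2) * ((s - 1) / s + 2 / (s + 1)) := by
  have hs0 : 0 < s := by linarith
  have e1 : (p + x - 1 / (2 * s + 3)) / (2 * s) - l / (2 * s) - (p + x) / (s * (s + 1)) -
      (x / 2 - 17 / 100) / (s + 2) * ((s - 1) / s + 2 / (s + 1)) =
      ((s + 1) * (s + 2) * (p - l) - (s + 1) * (s + 2) / (2 * s + 3) - 2 * (s + 2) * p +
        34 / 100 * (s ^ 2 + 2 * s - 1) - (s + 1) * x) / (2 * s * (s + 1) * (s + 2)) := by
    field_simp
    ring
  rw [e1]
  refine div_nonneg ?_ (by positivity)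
  have h1 : (s + 1) * (s + 2) / (2 * s + 3) ≤ (s + 2) / 2 := by
    rw [div_le_div_iff₀ (by linarith) (by norm_num)]
    nlinarith
  have h2 : (s + 1) * (s + 2) * (-(24170 / 100000)) ≤ (s + 1) * (s + 2) * (p - l) :=
    mul_le_mul_of_nonneg_left hpl (by positivity)
  have h3 : 2 * (s + 2) * p ≤ 2 * (s + 2) * (5708 / 10000) :=
    mul_le_mul_of_nonneg_left hp (by positivity)
  have h4 : (s + 1) * x ≤ (s + 1) * ((s + 2) / 32 + 24658 / 10000) :=
    mul_le_mul_of_nonneg_left hx (by linarith)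
  nlinarith

/-- **S7**, the closed form. -/
theorem S7_large {D : ℕ} (hD : Even D) (h100 : 100 ≤ D)
    (hRT : NCS.mainR ((D : ℝ) + 1) ≤ Real.log (PK (D + 1)))
    (hT : TT D ≤ (Real.log ((D : ℝ) + 1) / 2 - 17 / 100) / ((D : ℝ) + 1)) :
    Real.log (FM (D - 1) 1 (1 / 2 + (D : ℝ) * ((D : ℝ) - 2) / (2 * ((D : ℝ) - 1)))) ≤
    ((D : ℝ) + 2) * AA D - ((D : ℝ) - 2) * phi D (D - 2) - 2 * phi D (D - 1) := by
  have hDr : (100 : ℝ) ≤ D := by exact_mod_cast h100
  obtain ⟨s, hsD⟩ : ∃ s : ℝ, (D : ℝ) = s + 1 := ⟨(D : ℝ) - 1, by ring⟩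
  have hs : 99 ≤ s := by linarith
  have hs0 : 0 < s := by linarith
  have hpi := Real.pi_pos
  -- the bound for `FM`
  have hq : 0 < s ^ 2 + s - 1 := by nlinarith
  have hy : 1 / 2 + (D : ℝ) * ((D : ℝ) - 2) / (2 * ((D : ℝ) - 1)) =
      ((D - 1 : ℕ) : ℝ) - (s - (s ^ 2 + s - 1) / (2 * s)) := by
    rw [Nat.cast_sub (by omega), hsD]
    push_cast
    have e1 : s + 1 - 1 = s := by ring
    rw [e1]
    field_simp
    ring
  have hFM := FM_le_G (d := D) (k := D - 1) hD (by omega)
    (y := s - (s ^ 2 + s - 1) / (2 * s)) (by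
      rw [sub_nonneg, div_le_iff₀ (by positivity)]
      nlinarith) (by
      rw [hsD]
      have : 0 < (s ^ 2 + s - 1) / (2 * s) := by positivity
      linarith)
  have hk1 : D - (D - 1) = 1 := by omega
  rw [hk1, ← hy] at hFM
  have hF0 : 0 < FM (D - 1) 1 (1 / 2 + (D : ℝ) * ((D : ℝ) - 2) / (2 * ((D : ℝ) - 1))) := by
    apply NUM.FM_pos
    rw [hy]
    have : 0 ≤ s - (s ^ 2 + s - 1) / (2 * s) := by
      rw [sub_nonneg, div_le_iff₀ (by positivity)]
      nlinarith
    linarith
  set F := FM (D - 1) 1 (1 / 2 + (D : ℝ) * ((D : ℝ) - 2) / (2 * ((D : ℝ) - 1))) with hFdef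
  have hx1 : 1 - (s - (s ^ 2 + s - 1) / (2 * s)) / ((D : ℝ) - 1) =
      (s ^ 2 + s - 1) / (2 * s ^ 2) := by
    rw [hsD]
    have e1 : s + 1 - 1 = s := by ring
    rw [e1]
    field_simp
    ring
  rw [hx1] at hFM
  have hlF : Real.log F ≤ Real.log (bb (D / 2)) +
      1 / 2 * Real.log (2 * s ^ 2 / (s ^ 2 + s - 1)) := by
    have h0 : 0 < (s ^ 2 + s - 1) / (2 * s ^ 2) := by positivity
    have h1 : Real.log (bb (D / 2) * (1 / Real.sqrt ((s ^ 2 + s - 1) / (2 * s ^ 2)))) =
        Real.log (bb (D / 2)) + 1 / 2 * Real.log (2 * s ^ 2 / (s ^ 2 + s - 1)) := by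
      rw [Real.log_mul (bb_pos _).ne' (by positivity), one_div, Real.log_inv,
        Real.log_sqrt h0.le]
      have h2 : Real.log ((s ^ 2 + s - 1) / (2 * s ^ 2)) =
          -Real.log (2 * s ^ 2 / (s ^ 2 + s - 1)) := by
        rw [← Real.log_inv, inv_div]
      rw [h2]
      ring
    rw [← h1]
    exact Real.log_le_log hF0 hFM
  -- the potential
  have hU1 : NCS.Ud D = TT D + (s + 2) * AA D := by
    have h1 := TT_eq_Ud (d := D) (by omega)
    have h2 := CA.AA_mul D
    rw [hsD] at h2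
    have h3 : s + 1 + 1 = s + 2 := by ring
    rw [h3] at h2
    linarith
  have hp2 : phi D (D - 2) = (NCS.Ud D - CA.ft D) / s := by
    have h1 := CA.phi_top2 (d := D) (by omega)
    rw [hsD] at h1
    have h3 : s + 1 - 1 = s := by ring
    rw [h3] at h1
    rw [← h1]
    field_simp
  have hp1 : phi D (D - 1) = NCS.Ud D / (s + 1) := by
    unfold phi
    rw [if_pos (by omega)]
    have e1 : D - 1 + 1 = D := by omega
    have e2 : ((D - 1 : ℕ) : ℝ) + 1 = s + 1 := by
      rw [Nat.cast_sub (by omega), hsD]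
      push_cast
      ring
    rw [e1, e2, CA.sum_ffp (by omega)]
  have hft : CA.ft D = Real.log (bb (D / 2)) + 1 / 2 * Real.log (2 * s / (s + 1)) := by
    unfold CA.ft
    rw [hsD]
    have h3 : s + 1 - 1 = s := by ring
    rw [h3]
    rfl
  have hid : ((D : ℝ) + 2) * AA D - ((D : ℝ) - 2) * phi D (D - 2) - 2 * phi D (D - 1) =
      2 * AA D / (s * (s + 1)) - TT D * ((s - 1) / s + 2 / (s + 1)) +
        (s - 1) / s * Real.log (bb (D / 2)) +
        (s - 1) / (2 * s) * Real.log (2 * s / (s + 1)) := by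
    rw [hp2, hp1, hft, hU1, hsD]
    field_simp
    ring
  rw [hid]
  -- the logarithms
  set x := Real.log (s + 2) with hx
  set p := Real.log (Real.pi / 2) with hp
  have hx1 : 1 ≤ x := by
    rw [hx, Real.le_log_iff_exp_le (by linarith)]
    have := Real.exp_one_lt_d9
    linarith
  have hx2 : x ≤ (s + 2) / 32 + 24658 / 10000 := by
    have h1 : x = Real.log ((s + 2) / 32) + 5 * Real.log 2 := by
      have h2 : (5 : ℝ) * Real.log 2 = Real.log (2 ^ 5) := by
        rw [Real.log_pow]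
        norm_num
      rw [hx, h2, ← Real.log_mul (by positivity) (by norm_num)]
      congr 1
      ring
    have h2 := Real.log_le_sub_one_of_pos (x := (s + 2) / 32) (by positivity)
    have h3 := Real.log_two_lt_d9
    linarith
  have hp0 : 0 ≤ p := by
    rw [hp]
    apply Real.log_nonneg
    have := Real.pi_gt_three
    linarith
  have hp3 : p ≤ 5708 / 10000 := by
    have h1 := Real.log_le_sub_one_of_pos (x := Real.pi / 2) (by positivity)
    have h2 := Real.pi_lt_d4
    rw [hp]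
    linarith
  have hp4 : -(24170 / 100000) ≤ p - Real.log 2 := by
    have h1 := CA.log_pi_ge
    have h2 : p = Real.log Real.pi - Real.log 2 := by
      rw [hp, Real.log_div hpi.ne' (by norm_num)]
    have h3 := Real.log_two_lt_d9
    linarith
  have hA : -(p + x) / 2 ≤ AA D := by
    have h1 := hRT
    rw [← CA.AA_mul, hsD] at h1
    have e1 : s + 1 + 1 = s + 2 := by ring
    rw [e1] at h1
    unfold NCS.mainR at h1
    have e2 : Real.log (Real.pi * (s + 2) / 2) = p + x := by
      rw [hp, hx, ← Real.log_mul (by positivity) (by positivity)]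
      congr 1
      ring
    rw [e2, ← hx] at h1
    have h2 : (s + 2) * (-(p + x) / 2) ≤ (s + 2) * AA D := by
      refine le_trans ?_ h1
      nlinarith
    exact le_of_mul_le_mul_left h2 (by linarith)
  have hb : Real.log (bb (D / 2)) ≤ -(1 / 2) * (p + x - 1 / (2 * s + 3)) := by
    obtain ⟨m, hm⟩ := hD
    have h1 : D / 2 = m := by omega
    have h2 := NCS.log_cb_le m
    have h3 : NCS.cb m = bb m := rfl
    rw [h1]
    rw [h3] at h2
    have h4 : 2 * (m : ℝ) + 1 / 2 = s + 3 / 2 := by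
      have h5 : (D : ℝ) = m + m := by exact_mod_cast hm
      linarith
    rw [h4] at h2
    have h5 : Real.log (Real.pi * (s + 3 / 2) / 2) =
        p + x + Real.log ((s + 3 / 2) / (s + 2)) := by
      rw [hp, hx, ← Real.log_mul (by positivity) (by positivity),
        ← Real.log_mul (by positivity) (by positivity)]
      congr 1
      field_simp
    have h6 := Real.one_sub_inv_le_log_of_pos (x := (s + 3 / 2) / (s + 2)) (by positivity)
    have h7 : 1 - ((s + 3 / 2) / (s + 2))⁻¹ = -(1 / (2 * s + 3)) := by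
      rw [inv_div]
      have h8 : s + 3 / 2 ≠ 0 := by linarith
      have h9 : 2 * s + 3 ≠ 0 := by linarith
      field_simp
      ring
    rw [h7] at h6
    rw [h5] at h2
    linarith
  have hE := S7Big_E (s := s) (by linarith)
  have hm := S7Big_main hs hx2 hp4 hp3
  have hT' : TT D * ((s - 1) / s + 2 / (s + 1)) ≤
      (x / 2 - 17 / 100) / (s + 2) * ((s - 1) / s + 2 / (s + 1)) := by
    rw [hsD] at hT
    have e1 : s + 1 + 1 = s + 2 := by ring
    rw [e1, ← hx] at hT
    refine mul_le_mul_of_nonneg_right hT ?_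
    have : 0 ≤ (s - 1) / s := div_nonneg (by linarith) hs0.le
    positivity
  have hA' : -((p + x) / (s * (s + 1))) ≤ 2 * AA D / (s * (s + 1)) := by
    rw [← neg_div]
    refine div_le_div_of_nonneg_right ?_ (by positivity)
    linarith
  have hb' : (p + x - 1 / (2 * s + 3)) / (2 * s) + Real.log (bb (D / 2)) ≤
      (s - 1) / s * Real.log (bb (D / 2)) := by
    have h1 : (s - 1) / s * Real.log (bb (D / 2)) =
        Real.log (bb (D / 2)) + -Real.log (bb (D / 2)) / s := by
      field_simp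
      ring
    have h2 : (p + x - 1 / (2 * s + 3)) / (2 * s) ≤ -Real.log (bb (D / 2)) / s := by
      rw [div_le_div_iff₀ (by positivity) hs0]
      nlinarith
    linarith
  linarith

end MP_a3e05c_co.KL
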