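import Pool.Agent.Lib.MP_a3e05c_co.NUM.TabA
import Pool.Agent.Lib.MP_a3e05c_co.S1.Facts

/-!
# EULER, scalar block S7, numerical part

`log F_(D-1,1)(V) ≤ (D + 2) A_D - (D - 2) φ_D(D-2) - 2 φ_D(D-1)`,
`V = (D - 2) D / (2 (D - 1)) + 1 / 2`, for `D ≤ 62`.
-/

open Finset

namespace MP_a3e05c_co.NUM

open KL

/-- the scalar inequality S7 -/
def ScS7 (D : ℕ) : Prop :=
  Real.log (FM (D - 1) 1 (((D : ℝ) - 2) * D / (2 * ((D : ℝ) - 1)) + 1 / 2)) ≤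
    ((D : ℝ) + 2) * AA D - ((D : ℝ) - 2) * phi D (D - 2) - 2 * phi D (D - 1)

/-- `S * V`, rounded down -/
def t7 (D : ℕ) : ℕ := (D - 2) * D * S / (2 * (D - 1)) + S / 2

/-- upper bound of `- S * AA d`, with the second term -/
def aU7 (d : ℕ) : ℤ :=
  if d ≤ 22 then aU d
  else (mU (d + 1) - ((9 * S / (100 * (d + 1)) : ℕ) : ℤ)) / (d + 1 : ℕ) + 1

/-- the check -/
def ck7 (D : ℕ) : Bool :=
  decide ((D + 2 : ℕ) * aU7 D ≤
    (nlF (D - 1) 1 (t7 D) : ℤ) + (D - 2 : ℕ) * pL D (D - 2) + 2 * pL D (D - 1))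

theorem le_aU7 {d : ℕ} (hd : Even d) (h2 : 2 ≤ d) : S * -AA d ≤ (aU7 d : ℝ) := by
  unfold aU7
  split_ifs with h
  · exact le_aU rt_low rt_gen hd h2
  · have hS := S_pos
    have hodd : Odd (d + 1) := hd.add_one
    have hd1 : (0 : ℝ) < (d : ℝ) + 1 := by positivity
    have h3 := PK_low_c (d + 1) hodd (by omega)
    have h4 := le_mU hodd
    have h7 := lt_ediv_add_one (mU (d + 1) - ((9 * S / (100 * (d + 1)) : ℕ) : ℤ)) (d + 1)
      (Nat.succ_pos d)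
    have h8 : NCS.mainR ((d + 1 : ℕ) : ℝ) + 9 / (100 * ((d + 1 : ℕ) : ℝ)) ≤
        Real.log (PK (d + 1)) := by
      rw [Real.le_log_iff_exp_le (lt_of_lt_of_le (Real.exp_pos _) h3)]
      exact h3
    have h9 := div_le' (9 * S) (100 * (d + 1))
    have h10 : ((9 * S / (100 * (d + 1)) : ℕ) : ℝ) ≤ S * (9 / (100 * ((d + 1 : ℕ) : ℝ))) := by
      refine h9.trans (le_of_eq ?_)
      push_cast
      field_simp
    unfold AA
    have h11 : S * -(Real.log (PK (d + 1)) / ((d : ℝ) + 1)) =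
        (S * -Real.log (PK (d + 1))) / ((d : ℝ) + 1) := by ring
    rw [h11]
    have h12 : (S * -Real.log (PK (d + 1))) ≤
        ((mU (d + 1) - ((9 * S / (100 * (d + 1)) : ℕ) : ℤ) : ℤ) : ℝ) := by
      have h13 := mul_le_mul_of_nonneg_left h8 hS.le
      rw [Int.cast_sub, Int.cast_natCast]
      linarith
    calc (S * -Real.log (PK (d + 1))) / ((d : ℝ) + 1)
        ≤ ((mU (d + 1) - ((9 * S / (100 * (d + 1)) : ℕ) : ℤ) : ℤ) : ℝ) / ((d : ℝ) + 1) :=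
          div_le_div_of_nonneg_right h12 hd1.le
      _ = ((mU (d + 1) - ((9 * S / (100 * (d + 1)) : ℕ) : ℤ) : ℤ) : ℝ) / ((d + 1 : ℕ) : ℝ) := by
        push_cast; rfl
      _ ≤ _ := by
        refine h7.trans (le_of_eq ?_)
        push_cast
        rfl

theorem S7_of_ck {D : ℕ} (hD : Even D) (h4 : 2 ≤ D) (h : ck7 D = true) : ScS7 D := by
  have hS := S_pos
  have hD4 : (2 : ℝ) ≤ D := by exact_mod_cast h4
  have e1 : ((D - 1 : ℕ) : ℝ) = (D : ℝ) - 1 := by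
    rw [Nat.cast_sub (by omega)]; simp
  have e2 : ((D - 2 : ℕ) : ℝ) = (D : ℝ) - 2 := by
    rw [Nat.cast_sub (by omega)]; norm_num
  have hS2 : ((S / 2 : ℕ) : ℝ) = (S : ℝ) / 2 := by norm_num [S]
  have hV : (t7 D : ℝ) / S ≤ ((D : ℝ) - 2) * D / (2 * ((D : ℝ) - 1)) + 1 / 2 := by
    rw [div_le_iff₀ hS]
    have h1 := div_le' ((D - 2) * D * S) (2 * (D - 1))
    unfold t7
    rw [Nat.cast_add, hS2, add_mul]
    refine add_le_add (h1.trans (le_of_eq ?_)) (le_of_eq (by ring))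
    push_cast [e1, e2]
    ring
  have hV2 : ((D : ℝ) - 2) * D / (2 * ((D : ℝ) - 1)) + 1 / 2 ≤ ((D - 1 : ℕ) : ℝ) := by
    rw [e1]
    have h5 : ((D : ℝ) - 2) * D / (2 * ((D : ℝ) - 1)) ≤ ((D : ℝ) - 1) / 2 := by
      rw [div_le_iff₀ (by linarith)]
      nlinarith
    linarith
  have h1 := log_FM_le (M := 1) hV hV2
  have h2 := le_aU7 hD (by omega)
  have h3 := pL_le (d := D) (k := D - 2) (by omega) (by omega)
  have h5 := pL_le (d := D) (k := D - 1) (by omega) (by omega)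
  have h6 : (((D + 2 : ℕ) * aU7 D : ℤ) : ℝ) ≤
      (((nlF (D - 1) 1 (t7 D) : ℤ) + (D - 2 : ℕ) * pL D (D - 2) + 2 * pL D (D - 1) : ℤ) : ℝ) := by
    exact_mod_cast of_decide_eq_true h
  push_cast [e2] at h6
  have h8 := mul_le_mul_of_nonneg_left h2 (by linarith : (0 : ℝ) ≤ (D : ℝ) + 2)
  have h9 := mul_le_mul_of_nonneg_left h3 (by linarith : (0 : ℝ) ≤ (D : ℝ) - 2)
  have h11 : S * (-((nlF (D - 1) 1 (t7 D) : ℝ) / S)) = -(nlF (D - 1) 1 (t7 D) : ℝ) := by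
    rw [mul_neg, mul_div_cancel₀ _ hS.ne']
  have h12 := mul_le_mul_of_nonneg_left h1 hS.le
  rw [h11] at h12
  unfold ScS7
  have h13 : S * Real.log (FM (D - 1) 1 (((D : ℝ) - 2) * D / (2 * ((D : ℝ) - 1)) + 1 / 2)) ≤
      S * (((D : ℝ) + 2) * AA D - ((D : ℝ) - 2) * phi D (D - 2) - 2 * phi D (D - 1)) := by
    nlinarith
  exact le_of_mul_le_mul_left h13 hS

/-- kernel check, `2 ≤ D ≤ 62` -/
theorem ck7_all : ∀ m < 31, ck7 (2 * m + 2) = true := by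
  decide +kernel

theorem S7_small {D : ℕ} (hD : Even D) (h4 : 2 ≤ D) (h : D ≤ 62) : ScS7 D := by
  obtain ⟨m, hm⟩ : ∃ m, D = 2 * m + 2 := by
    obtain ⟨r, hr⟩ := hD
    exact ⟨r - 1, by omega⟩
  subst hm
  exact S7_of_ck hD h4 (ck7_all m (by omega))

end MP_a3e05c_co.NUM
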