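import Pool.Agent.Lib.MP_a3e05c_co.NUM.TabA
import Pool.Agent.Lib.MP_a3e05c_co.S1.Facts

/-!
# EULER, scalar block S7 (case C6), numerical part

`log F_(D-1,1)(1/2 + D (D-2)/(2 (D-1))) ≤ (D + 2) A_D - (D - 2) φ_D(D-2) - 2 φ_D(D-1)` for small `D`.
-/

open Finset

namespace MP_a3e05c_co.NUM

open KL

/-- upper bound of `- S * AA d`, with the second term of the lower bound for `PK` -/
def aC (d : ℕ) : ℤ :=
  if d ≤ 22 then aU d else (mU (d + 1) - (9 * S / (100 * (d + 1)) : ℕ)) / (d + 1 : ℕ) + 1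

theorem le_aC {d : ℕ} (hd : Even d) (h2 : 2 ≤ d) : S * -AA d ≤ (aC d : ℝ) := by
  unfold aC
  split_ifs with h
  · exact le_aU rt_low rt_gen hd h2
  · have hS := S_pos
    have hodd : Odd (d + 1) := hd.add_one
    have hd1 : (0 : ℝ) < (d : ℝ) + 1 := by positivity
    have h3 := PK_low_c (d + 1) hodd (by omega)
    have h4 := le_mU hodd
    have h5 := div_le' (9 * S) (100 * (d + 1))
    have h7 := lt_ediv_add_one (mU (d + 1) - (9 * S / (100 * (d + 1)) : ℕ)) (d + 1) (Nat.succ_pos d)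
    have h8 : NCS.mainR ((d + 1 : ℕ) : ℝ) + 9 / (100 * ((d + 1 : ℕ) : ℝ)) ≤
        Real.log (PK (d + 1)) := by
      rw [Real.le_log_iff_exp_le (lt_of_lt_of_le (Real.exp_pos _) h3)]
      exact h3
    unfold AA
    have h11 : S * -(Real.log (PK (d + 1)) / ((d : ℝ) + 1)) =
        (S * -Real.log (PK (d + 1))) / ((d : ℝ) + 1) := by ring
    rw [h11]
    have h13 : ((9 * S / (100 * (d + 1)) : ℕ) : ℝ) ≤ S * (9 / (100 * ((d + 1 : ℕ) : ℝ))) := by
      refine h5.trans (le_of_eq ?_)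
      push_cast
      field_simp
    have h12 : (S * -Real.log (PK (d + 1))) ≤
        ((mU (d + 1) - (9 * S / (100 * (d + 1)) : ℕ) : ℤ) : ℝ) := by
      have h14 := mul_le_mul_of_nonneg_left h8 hS.le
      rw [Int.cast_sub, Int.cast_natCast]
      rw [mul_add] at h14
      linarith
    calc (S * -Real.log (PK (d + 1))) / ((d : ℝ) + 1)
        ≤ ((mU (d + 1) - (9 * S / (100 * (d + 1)) : ℕ) : ℤ) : ℝ) / ((d : ℝ) + 1) :=
          div_le_div_of_nonneg_right h12 hd1.le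
      _ = ((mU (d + 1) - (9 * S / (100 * (d + 1)) : ℕ) : ℤ) : ℝ) / ((d + 1 : ℕ) : ℝ) := by
          push_cast; rfl
      _ ≤ _ := by
        refine h7.trans (le_of_eq ?_)
        push_cast
        rfl

/-- `S * (1 / 2 + D (D - 2) / (2 (D - 1)))`, rounded down -/
def t7 (D : ℕ) : ℕ := ((D - 1) + D * (D - 2)) * S / (2 * (D - 1))

/-- the check -/
def ck7 (D : ℕ) : Bool :=
  decide ((D + 2 : ℕ) * aC D ≤
    (nlF (D - 1) 1 (t7 D) : ℤ) + (D - 2 : ℕ) * pL D (D - 2) + 2 * pL D (D - 1))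

/-- the statement `S7` for the degree `D` -/
def S7D (D : ℕ) : Prop :=
  Real.log (FM (D - 1) 1 (1 / 2 + (D : ℝ) * ((D : ℝ) - 2) / (2 * ((D : ℝ) - 1)))) ≤
    ((D : ℝ) + 2) * AA D - ((D : ℝ) - 2) * phi D (D - 2) - 2 * phi D (D - 1)

theorem S7_of_ck {D : ℕ} (hD : Even D) (h4 : 4 ≤ D) (h : ck7 D = true) : S7D D := by
  have hS := S_pos
  have hD4 : (4 : ℝ) ≤ D := by exact_mod_cast h4
  have e1 : ((D - 1 : ℕ) : ℝ) = (D : ℝ) - 1 := by
    rw [Nat.cast_sub (by omega)]; simp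
  have e2 : ((D - 2 : ℕ) : ℝ) = (D : ℝ) - 2 := by
    rw [Nat.cast_sub (by omega)]; simp
  have e3 : 1 / 2 + (D : ℝ) * ((D : ℝ) - 2) / (2 * ((D : ℝ) - 1)) =
      (((D : ℝ) - 1) + D * ((D : ℝ) - 2)) / (2 * ((D : ℝ) - 1)) := by
    have : (D : ℝ) - 1 ≠ 0 := by linarith
    field_simp
  have hV : (t7 D : ℝ) / S ≤ 1 / 2 + (D : ℝ) * ((D : ℝ) - 2) / (2 * ((D : ℝ) - 1)) := by
    rw [div_le_iff₀ hS, e3]
    have h1 := div_le' (((D - 1) + D * (D - 2)) * S) (2 * (D - 1))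
    unfold t7
    refine h1.trans (le_of_eq ?_)
    push_cast [e1, e2]
    ring
  have hV2 : 1 / 2 + (D : ℝ) * ((D : ℝ) - 2) / (2 * ((D : ℝ) - 1)) ≤ ((D - 1 : ℕ) : ℝ) := by
    rw [e1, e3, div_le_iff₀ (by linarith)]
    nlinarith
  have h1 := log_FM_le (M := 1) hV hV2
  have h2 := le_aC hD (by omega)
  have h3 := pL_le (d := D) (k := D - 2) (by omega) (by omega)
  have h5 := pL_le (d := D) (k := D - 1) (by omega) (by omega)
  have h6 : (((D + 2 : ℕ) * aC D : ℤ) : ℝ) ≤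
      (((nlF (D - 1) 1 (t7 D) : ℤ) + (D - 2 : ℕ) * pL D (D - 2) + 2 * pL D (D - 1) : ℤ) : ℝ) := by
    exact_mod_cast of_decide_eq_true h
  push_cast [e2] at h6
  have h7 : (0 : ℝ) ≤ (D : ℝ) - 2 := by linarith
  have h8 := mul_le_mul_of_nonneg_left h2 (by linarith : (0 : ℝ) ≤ (D : ℝ) + 2)
  have h9 := mul_le_mul_of_nonneg_left h3 h7
  have h11 : S * (-((nlF (D - 1) 1 (t7 D) : ℝ) / S)) = -(nlF (D - 1) 1 (t7 D) : ℝ) := by
    rw [mul_neg, mul_div_cancel₀ _ hS.ne']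
  have h12 := mul_le_mul_of_nonneg_left h1 hS.le
  rw [h11] at h12
  unfold S7D
  refine le_of_mul_le_mul_left ?_ hS
  nlinarith

/-- kernel checks -/
private theorem ck7_a : ∀ m < 40, ck7 (2 * m + 4) = true := by
  decide +kernel

private theorem ck7_b : ∀ m < 70, 40 ≤ m → ck7 (2 * m + 4) = true := by
  decide +kernel

private theorem ck7_c : ∀ m < 100, 70 ≤ m → ck7 (2 * m + 4) = true := by
  decide +kernel

/-- **S7 for `D ≤ 202`.** -/
theorem S7_small {D : ℕ} (hD : Even D) (h4 : 4 ≤ D) (h : D ≤ 202) : S7D D := by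
  refine S7_of_ck hD h4 ?_
  obtain ⟨m, rfl⟩ : ∃ m, D = 2 * m + 4 := by
    obtain ⟨r, rfl⟩ := hD
    exact ⟨r - 2, by omega⟩
  rcases Nat.lt_or_ge m 40 with h1 | h1
  · exact ck7_a m h1
  rcases Nat.lt_or_ge m 70 with h2 | h2
  · exact ck7_b m h2 h1
  · exact ck7_c m (by omega) h2

end MP_a3e05c_co.NUM
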